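import Mathlib
import Pool.Agent.H682R2.StdModule

/-!
Extension of matrix identities from an infinite field to commutative algebras over it.
-/

namespace Pool.Agent.Y555.Mag.Ext

open Pool.Agent.H682R2.StdTri

variable {F : Type*} [Field F]

theorem lift_mapMatrix {R S : Type*} [CommRing R] [CommRing S] [Algebra F R] [Algebra F S] {d : ℕ}
    (φ : R →ₐ[F] S) (G : ℕ → Matrix (Fin d) (Fin d) R) (r : FreeAlgebra F ℕ) :
    FreeAlgebra.lift F (fun i => (G i).map φ) r = (FreeAlgebra.lift F G r).map φ := by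
  have : FreeAlgebra.lift F (fun i => (G i).map φ)
      = (AlgHom.mapMatrix φ).comp (FreeAlgebra.lift F G) := by
    apply FreeAlgebra.hom_ext
    funext i
    simp
  rw [this]
  rfl

theorem generic [Infinite F] {R : Type*} [CommRing R] [Algebra F R] {d : ℕ} {σ : Type*}
    (G : ℕ → Matrix (Fin d) (Fin d) (MvPolynomial σ F)) (r : FreeAlgebra F ℕ)
    (h : ∀ x : σ → F, FreeAlgebra.lift F (fun i => (G i).map (MvPolynomial.aeval x)) r = 0)
    (y : σ → R) : FreeAlgebra.lift F (fun i => (G i).map (MvPolynomial.aeval y)) r = 0 := by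
  have h0 : FreeAlgebra.lift F G r = 0 := by
    refine Matrix.ext fun i j => ?_
    apply MvPolynomial.funext
    intro x
    have h1 := h x
    rw [lift_mapMatrix] at h1
    have h2 := congrFun (congrFun h1 i) j
    rw [Matrix.map_apply, Matrix.zero_apply] at h2
    rw [Matrix.zero_apply, map_zero, ← h2]
    rw [MvPolynomial.aeval_def, MvPolynomial.eval, Algebra.algebraMap_self]
    rfl
  rw [lift_mapMatrix, h0]
  ext i j
  simp

/-- index of the generic triangular matrix -/
def nm (i j : Fin 5) : Fin 5 × Fin 5 := if i = 4 ∧ j = 4 then (0, 0) else (i, j)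

/-- the identities of the triangular matrices with equal corner entries over the field hold over
every commutative algebra -/
theorem tri_ext [Infinite F] {R : Type*} [CommRing R] [Algebra F R] (r : FreeAlgebra F ℕ)
    (h : ∀ A : ℕ → Matrix (Fin 5) (Fin 5) F, (∀ i, Tri (A i)) → FreeAlgebra.lift F A r = 0)
    (A : ℕ → Matrix (Fin 5) (Fin 5) R) (hA : ∀ i, Tri (A i)) : FreeAlgebra.lift F A r = 0 := by
  set G : ℕ → Matrix (Fin 5) (Fin 5) (MvPolynomial (ℕ × (Fin 5 × Fin 5)) F) := fun n =>
    Matrix.of fun i j => if i < j then 0 else MvPolynomial.X (n, nm i j) with hG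
  have h1 := generic (R := R) G r (fun x => h _ fun n => ?_) fun p => A p.1 p.2.1 p.2.2
  · have h2 : A = fun n => (G n).map
        (MvPolynomial.aeval fun p : ℕ × (Fin 5 × Fin 5) => A p.1 p.2.1 p.2.2) := by
      funext n
      ext i j
      rw [Matrix.map_apply]
      change _ = MvPolynomial.aeval _ (if i < j then 0 else MvPolynomial.X (n, nm i j))
      by_cases hij : i < j
      · rw [if_pos hij, map_zero]
        exact (hA n).low i j (by simpa using hij)
      · rw [if_neg hij, MvPolynomial.aeval_X]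
        unfold nm
        split_ifs with h3
        · obtain ⟨rfl, rfl⟩ := h3
          exact (hA n).eq.symm
        · rfl
    rw [h2]
    exact h1
  · refine ⟨fun i j hij => ?_, ?_⟩
    · rw [Matrix.map_apply]
      have h3 : G n i j = 0 := by
        change (if i < j then 0 else MvPolynomial.X (n, nm i j)) = _
        rw [if_pos (by simpa using hij)]
      rw [h3, map_zero]
    · rw [Matrix.map_apply, Matrix.map_apply]
      have h3 : G n 0 0 = G n 4 4 := by
        change (if (0 : Fin 5) < 0 then 0 else MvPolynomial.X (n, nm 0 0))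
          = (if (4 : Fin 5) < 4 then 0 else MvPolynomial.X (n, nm 4 4))
        rw [if_neg (by decide), if_neg (by decide)]
        rfl
      rw [h3]

/-- the identities of the matrix algebra over the field hold over every commutative algebra -/
theorem mat_ext [Infinite F] {R : Type*} [CommRing R] [Algebra F R] {d : ℕ} (r : FreeAlgebra F ℕ)
    (h : ∀ A : ℕ → Matrix (Fin d) (Fin d) F, FreeAlgebra.lift F A r = 0)
    (A : ℕ → Matrix (Fin d) (Fin d) R) : FreeAlgebra.lift F A r = 0 := by
  have h1 := generic (R := R) (fun n => Matrix.of fun i j => MvPolynomial.X (n, i, j)) r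
    (fun x => h _) fun p : ℕ × (Fin d × Fin d) => A p.1 p.2.1 p.2.2
  have h2 : A = fun n => (Matrix.of fun i j => (MvPolynomial.X (n, i, j) :
      MvPolynomial (ℕ × (Fin d × Fin d)) F)).map
        (MvPolynomial.aeval fun p : ℕ × (Fin d × Fin d) => A p.1 p.2.1 p.2.2) := by
    funext n
    ext i j
    simp
  rw [h2]
  exact h1

open Polynomial in
/-- reduction `F[w]^d → F^5` -/
noncomputable def qv {d : ℕ} (hd : 4 ≤ d) (v : Fin d → F[X]) : Fin 5 → F :=
  ![(v ⟨0, by omega⟩).coeff 0, (v ⟨1, by omega⟩).coeff 0, (v ⟨2, by omega⟩).coeff 0,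
    (v ⟨3, by omega⟩).coeff 0, (v ⟨0, by omega⟩).coeff 1]

open Polynomial in
/-- lift of a triangular matrix with equal corner entries to `F[w]` -/
noncomputable def up {d : ℕ} (A : Matrix (Fin 5) (Fin 5) F) : Matrix (Fin d) (Fin d) F[X] :=
  Matrix.of fun i j =>
    if hij : (i : ℕ) < 4 ∧ (j : ℕ) < 4 then
      C (A ⟨i, by omega⟩ ⟨j, by omega⟩) + (if (i : ℕ) = 0 then C (A 4 ⟨j, by omega⟩) * X else 0)
    else 0

open Polynomial in
theorem sum_four {M : Type*} [AddCommMonoid M] {d : ℕ} (hd : 4 ≤ d) (f : Fin d → M)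
    (hf : ∀ i : Fin d, 4 ≤ (i : ℕ) → f i = 0) :
    ∑ i, f i = f ⟨0, by omega⟩ + f ⟨1, by omega⟩ + f ⟨2, by omega⟩ + f ⟨3, by omega⟩ := by
  obtain ⟨k, rfl⟩ := Nat.exists_eq_add_of_le hd
  rw [Fin.sum_univ_add, Fin.sum_univ_four]
  rw [Finset.sum_eq_zero (fun i _ => hf _ (by simp)), add_zero]
  rfl

open Polynomial in
theorem up_qv {d : ℕ} (hd : 4 ≤ d) {A : Matrix (Fin 5) (Fin 5) F} (hA : Tri A)
    (v : Fin d → F[X]) : qv hd ((up A).mulVec v) = A.mulVec (qv hd v) := by
  have hs : ∀ i : Fin d, ((up A).mulVec v) i = up A i ⟨0, by omega⟩ * v ⟨0, by omega⟩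
      + up A i ⟨1, by omega⟩ * v ⟨1, by omega⟩ + up A i ⟨2, by omega⟩ * v ⟨2, by omega⟩
      + up A i ⟨3, by omega⟩ * v ⟨3, by omega⟩ := by
    intro i
    unfold Matrix.mulVec dotProduct
    rw [sum_four hd]
    intro j hj
    have : up A i j = 0 := by
      unfold up
      rw [Matrix.of_apply, dif_neg]
      omega
    change up A i j * v j = 0
    rw [this, zero_mul]
  have hl : ∀ i j : Fin 5, i < j → A i j = 0 := fun i j hij => hA.low i j (by simpa using hij)
  have l01 := hl 0 1 (by decide)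
  have l02 := hl 0 2 (by decide)
  have l03 := hl 0 3 (by decide)
  have l04 := hl 0 4 (by decide)
  have l12 := hl 1 2 (by decide)
  have l13 := hl 1 3 (by decide)
  have l14 := hl 1 4 (by decide)
  have l23 := hl 2 3 (by decide)
  have l24 := hl 2 4 (by decide)
  have l34 := hl 3 4 (by decide)
  have h04 := hA.eq
  have hA' : ∀ (w : Fin 5 → F) (k : Fin 5), (A.mulVec w) k
      = A k 0 * w 0 + A k 1 * w 1 + A k 2 * w 2 + A k 3 * w 3 + A k 4 * w 4 := by
    intro w k
    simp [Matrix.mulVec, dotProduct, Fin.sum_univ_five]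
  ext k
  rw [hA']
  simp only [qv, hs]
  fin_cases k <;>
    simp [up, mul_coeff_zero, mul_coeff_one,
      add_mul, l01, l02, l03, l04, l12, l13, l14, l23, l24, l34, h04]
  all_goals try ring

open Polynomial in
theorem qv_add {d : ℕ} (hd : 4 ≤ d) (v w : Fin d → F[X]) : qv hd (v + w) = qv hd v + qv hd w := by
  ext k
  fin_cases k <;> simp [qv]

open Polynomial in
theorem qv_smul {d : ℕ} (hd : 4 ≤ d) (a : F) (v : Fin d → F[X]) :
    qv hd (a • v) = a • qv hd v := by
  ext k
  fin_cases k <;> simp [qv]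

open Polynomial in
theorem qv_surj {d : ℕ} (hd : 4 ≤ d) (u : Fin 5 → F) : ∃ v, qv hd v = u := by
  refine ⟨fun i => if (i : ℕ) = 0 then C (u 0) + C (u 4) * X else
    if hi : (i : ℕ) < 4 then C (u ⟨i, by omega⟩) else 0, ?_⟩
  ext k
  fin_cases k <;> simp [qv]

open Polynomial in
theorem up_lift {d : ℕ} (hd : 4 ≤ d) {A : ℕ → Matrix (Fin 5) (Fin 5) F} (hA : ∀ i, Tri (A i))
    (r : FreeAlgebra F ℕ) (v : Fin d → F[X]) :
    qv hd ((FreeAlgebra.lift F (fun i => up (d := d) (A i)) r).mulVec v)
      = (FreeAlgebra.lift F A r).mulVec (qv hd v) := by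
  induction r using FreeAlgebra.induction generalizing v with
  | grade0 a =>
    rw [AlgHom.commutes, AlgHom.commutes, Algebra.algebraMap_eq_smul_one,
      Algebra.algebraMap_eq_smul_one, Matrix.smul_mulVec, Matrix.smul_mulVec, Matrix.one_mulVec,
      Matrix.one_mulVec, qv_smul]
  | grade1 i =>
    rw [FreeAlgebra.lift_ι_apply, FreeAlgebra.lift_ι_apply]
    exact up_qv hd (hA i) v
  | mul a b ha hb =>
    rw [map_mul, map_mul, ← Matrix.mulVec_mulVec, ← Matrix.mulVec_mulVec, ha, hb]
  | add a b ha hb =>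
    rw [map_add, map_add, Matrix.add_mulVec, Matrix.add_mulVec, qv_add, ha, hb]

/-- **The triangular matrices with equal corner entries satisfy the identities of the `d × d`
matrices, `d ≥ 4`.** -/
theorem tri_of_mat [Infinite F] {d : ℕ} (hd : 4 ≤ d) (r : FreeAlgebra F ℕ)
    (h : ∀ A : ℕ → Matrix (Fin d) (Fin d) F, FreeAlgebra.lift F A r = 0)
    (A : ℕ → Matrix (Fin 5) (Fin 5) F) (hA : ∀ i, Tri (A i)) : FreeAlgebra.lift F A r = 0 := by
  have h1 := mat_ext (R := Polynomial F) r h fun i => up (d := d) (A i)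
  ext i j
  obtain ⟨v, hv⟩ := qv_surj hd (Pi.single j (1 : F))
  have h2 := up_lift hd hA r v
  rw [h1, Matrix.zero_mulVec, hv, Matrix.mulVec_single_one] at h2
  have h3 := congrFun h2 i
  have h4 : qv hd (0 : Fin d → Polynomial F) i = 0 := by
    fin_cases i <;> simp [qv]
  rw [h4] at h3
  exact h3.symm

end Pool.Agent.Y555.Mag.Ext
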