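import Mathlib
import Pool.Agent.H682R2.StdNil

/-!
Nilpotency from any polynomial identity: if `t z - z t = P(z)` in an algebra over a field of
characteristic zero in which a nonzero noncommutative polynomial `g` vanishes (on elements without
constant term in `z, t`), then `P(z)` is nilpotent, with an exponent depending only on `g`, `P`.
-/

namespace Pool.Agent.Y555.Mag.Nil

open Polynomial Pool.Agent.H682R2.StdNil

universe u

variable {F : Type u} [Field F]

theorem Sym.add {y1 y2 : Module.End F F[X]} {s : ℕ} {l1 l2 : ℕ → F} (h1 : Sym y1 s l1)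
    (h2 : Sym y2 s l2) : Sym (y1 + y2) s (fun k => l1 k + l2 k) := by
  intro k v
  obtain ⟨w1, e1⟩ := h1 k v
  obtain ⟨w2, e2⟩ := h2 k v
  refine ⟨w1 + w2, ?_⟩
  rw [LinearMap.add_apply, e1, e2, add_mul, C_add]
  ring

theorem Sym.smul {y : Module.End F F[X]} {s : ℕ} {l : ℕ → F} (h : Sym y s l) (a : F) :
    Sym (a • y) s (fun k => a * l k) := by
  intro k v
  obtain ⟨w, e⟩ := h k v
  refine ⟨C a * w, ?_⟩
  rw [LinearMap.smul_apply, e, smul_eq_C_mul]
  simp only [C_mul]
  ring

theorem Sym.aevalT {P Q : F[X]} (hP : P = X * Q) (h : F[X]) :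
    Sym (aeval (To P) h) 0 (fun k => h.eval (Q.coeff 0 * k)) := by
  induction h using Polynomial.induction_on' with
  | add p q hp hq =>
    have := Sym.add hp hq
    simpa only [map_add, eval_add] using this
  | monomial n a =>
    have h1 := Sym.smul ((Sym.T hP).pow n) a
    have h2 : aeval (To P) (monomial n a) = a • (To P) ^ n := by
      rw [aeval_monomial, Algebra.smul_def]
    rw [h2]
    simpa only [eval_monomial] using h1

/-- symbol of a product of operators of degree one -/
def vp (lam : ℕ → ℕ → F) : List ℕ → ℕ → F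
  | [], _ => 1
  | i :: w, k => lam i (k + w.length) * vp lam w k

theorem Sym.word {y : ℕ → Module.End F F[X]} {lam : ℕ → ℕ → F} (h : ∀ i, Sym (y i) 1 (lam i))
    (w : List ℕ) : Sym ((w.map y).prod) w.length (vp lam w) := by
  induction w with
  | nil => simpa [vp] using Sym.one (F := F)
  | cons i w ih =>
    rw [List.map_cons, List.prod_cons]
    have := (h i).mul ih
    simpa [vp] using this

/-- the word is spelled by the letters `L` -/
def mt (L : ℕ → ℕ) : List ℕ → Prop
  | [] => True
  | i :: w => L w.length = i ∧ mt L w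

theorem mt_unique {L : ℕ → ℕ} : ∀ {w w' : List ℕ}, mt L w → mt L w' → w.length = w'.length →
    w = w' := by
  intro w
  induction w with
  | nil =>
    intro w' _ _ h
    rw [List.length_nil, eq_comm, List.length_eq_zero_iff] at h
    exact h.symm
  | cons i w ih =>
    intro w' h1 h2 h3
    cases w' with
    | nil => simp at h3
    | cons i' w' =>
      have h4 : w.length = w'.length := by simpa using h3
      obtain ⟨a1, a2⟩ := h1
      obtain ⟨b1, b2⟩ := h2
      rw [ih a2 b2 h4]
      rw [h4] at a1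
      rw [← a1, b1]

theorem mt_self (w : List ℕ) : ∀ u : List ℕ, mt (fun t => (u ++ w).reverse.getD t 0) w := by
  induction w with
  | nil => intro u; trivial
  | cons i w ih =>
    intro u
    refine ⟨?_, ?_⟩
    · simp
    · have := ih (u ++ [i])
      simpa using this

theorem vp_zero {L : ℕ → ℕ} {lam : ℕ → ℕ → F} {n : ℕ}
    (hl : ∀ i t, t < n → lam i t = if L t = i then 1 else 0) :
    ∀ w : List ℕ, w.length ≤ n → (mt L w → vp lam w 0 = 1) ∧ (¬ mt L w → vp lam w 0 = 0) := by
  intro w
  induction w with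
  | nil => intro _; exact ⟨fun _ => rfl, fun h => absurd trivial h⟩
  | cons i w ih =>
    intro hw
    rw [List.length_cons] at hw
    obtain ⟨h1, h2⟩ := ih (by omega)
    have h3 := hl i w.length (by omega)
    constructor
    · rintro ⟨a1, a2⟩
      unfold vp
      rw [zero_add, h3, if_pos a1, one_mul, h1 a2]
    · intro h
      unfold vp
      rw [zero_add, h3]
      by_cases ha : L w.length = i
      · rw [if_pos ha, one_mul]
        exact h2 fun hm => h ⟨ha, hm⟩
      · rw [if_neg ha, zero_mul]

/-- evaluation of a noncommutative polynomial as a sum over words -/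
theorem lift_eq_sum {B : Type*} [Ring B] [Algebra F B] (y : ℕ → B) (g : FreeAlgebra F ℕ) :
    FreeAlgebra.lift F y g =
      (FreeAlgebra.equivMonoidAlgebraFreeMonoid (R := F) (X := ℕ) g).coeff.sum
        fun w a => a • ((FreeMonoid.toList w).map y).prod := by
  have h : FreeAlgebra.lift F y = (MonoidAlgebra.lift F B (FreeMonoid ℕ) (FreeMonoid.lift y)).comp
      (FreeAlgebra.equivMonoidAlgebraFreeMonoid (R := F) (X := ℕ)).toAlgHom := by
    apply FreeAlgebra.hom_ext
    funext i
    simp [FreeAlgebra.equivMonoidAlgebraFreeMonoid]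
  rw [h, AlgHom.comp_apply, MonoidAlgebra.lift_apply]
  simp only [FreeMonoid.lift_apply]
  rfl

theorem exists_ne_zero [CharZero F] {P Q : F[X]} (hP : P = X * Q) (hQ : Q.coeff 0 ≠ 0)
    {g : FreeAlgebra F ℕ} (hg : g ≠ 0) : ∃ h : ℕ → F[X],
      FreeAlgebra.lift F (fun i => Zo F * aeval (To P) (h i)) g ≠ 0 := by
  classical
  set G := (FreeAlgebra.equivMonoidAlgebraFreeMonoid (R := F) (X := ℕ) g).coeff with hG
  have hG0 : G ≠ 0 := by
    intro h
    rw [hG, MonoidAlgebra.coeff_eq_zero] at h
    exact hg ((map_eq_zero_iff _ (AlgEquiv.injective _)).1 h)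
  obtain ⟨w0, hw0, hmin⟩ := Finset.exists_min_image G.support (fun w => (FreeMonoid.toList w).length)
    (Finsupp.support_nonempty_iff.2 hG0)
  set n := (FreeMonoid.toList w0).length with hn
  set L : ℕ → ℕ := fun t => ([] ++ FreeMonoid.toList w0).reverse.getD t 0 with hL
  have hinj : Set.InjOn (fun t : ℕ => Q.coeff 0 * (t : F)) (Finset.range n : Set ℕ) := by
    intro a _ b _ hab
    have := mul_left_cancel₀ hQ hab
    exact_mod_cast this
  refine ⟨fun i => Lagrange.interpolate (Finset.range n) (fun t : ℕ => Q.coeff 0 * (t : F))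
    (fun t => if L t = i then 1 else 0), ?_⟩
  set h : ℕ → F[X] := fun i => Lagrange.interpolate (Finset.range n)
    (fun t : ℕ => Q.coeff 0 * (t : F)) (fun t => if L t = i then 1 else 0) with hh
  have hev : ∀ i t, t < n → (h i).eval (Q.coeff 0 * t) = if L t = i then 1 else 0 := by
    intro i t ht
    exact Lagrange.eval_interpolate_at_node _ hinj (Finset.mem_range.2 ht)
  set y : ℕ → Module.End F F[X] := fun i => Zo F * aeval (To P) (h i) with hy
  have hsym : ∀ i, Sym (y i) 1 (fun k => (h i).eval (Q.coeff 0 * k)) := by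
    intro i
    have := (Sym.Z (F := F)).mul (Sym.aevalT hP (h i))
    simpa using this
  have hword : ∀ w : List ℕ, n ≤ w.length → ((w.map y).prod (X ^ 0 * 1)).coeff n
      = if w = FreeMonoid.toList w0 then 1 else 0 := by
    intro w hw
    obtain ⟨v, e⟩ := Sym.word hsym w 0 1
    rw [e, coeff_add, coeff_C_mul, coeff_X_pow, zero_add]
    rw [coeff_X_pow_mul', if_neg (by omega : ¬ (w.length + 1 ≤ n)), add_zero, coeff_one_zero,
      mul_one]
    by_cases hl : n = w.length
    · rw [if_pos hl, mul_one]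
      have h1 := vp_zero (L := L) (lam := fun i k => (h i).eval (Q.coeff 0 * k)) (n := n) hev w
        hl.ge
      by_cases hm : mt L w
      · rw [h1.1 hm, if_pos]
        exact mt_unique hm (mt_self _ []) hl.symm
      · rw [h1.2 hm, if_neg]
        rintro rfl
        exact hm (mt_self _ [])
    · rw [if_neg hl, mul_zero, if_neg]
      rintro rfl
      exact hl hn
  intro h0
  have h1 := congrArg (fun y : Module.End F F[X] => (y (X ^ 0 * 1)).coeff n) h0
  simp only [LinearMap.zero_apply, coeff_zero] at h1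
  rw [lift_eq_sum, Finsupp.sum, LinearMap.sum_apply, finsetSum_coeff] at h1
  rw [Finset.sum_eq_single w0] at h1
  · rw [LinearMap.smul_apply, coeff_smul, hword _ le_rfl, if_pos rfl, smul_eq_mul, mul_one] at h1
    exact (Finsupp.mem_support_iff.1 hw0) h1
  · intro w hw hne
    rw [LinearMap.smul_apply, coeff_smul, hword _ (hmin w hw), if_neg, smul_zero]
    intro he
    exact hne (FreeMonoid.toList.injective he)
  · intro hn0
    exact absurd hw0 hn0

open Pool.Agent.Helper707 in
/-- **Nilpotency.** -/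
theorem exists_nil (F : Type u) [Field F] [CharZero F] {g : FreeAlgebra F ℕ} (hg : g ≠ 0) (R : ℕ) :
    ∃ M, 0 < M ∧
    ∀ (B : Type u) [Ring B] [Algebra F B] (z t : B),
      t * z - z * t = aeval z (Idem.P F R) →
      (∀ q : ℕ → FreeAlgebra F (Fin 2), (∀ i, q i ∈ aug F 2) →
        FreeAlgebra.lift F (fun i => FreeAlgebra.lift F ![z, t] (q i)) g = 0) →
      (aeval z (Idem.P F R)) ^ M = 0 := by
  set P := Idem.P F R with hPdef
  obtain ⟨Q, hP, hQ⟩ : ∃ Q, P = X * Q ∧ Q.coeff 0 ≠ 0 := by
    refine ⟨∏ a ∈ Finset.range R, (X - C (((a + 1 : ℕ)) : F)), ?_, ?_⟩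
    · rw [hPdef, Idem.P, Finset.prod_range_succ', mul_comm]
      simp
    · rw [coeff_zero_eq_eval_zero, eval_prod, Finset.prod_ne_zero_iff]
      intro a _
      simp only [eval_sub, eval_X, eval_C, zero_sub, neg_ne_zero]
      exact_mod_cast Nat.succ_ne_zero a
  obtain ⟨h, hh⟩ := exists_ne_zero hP hQ hg
  set q : ℕ → FreeAlgebra F (Fin 2) := fun j =>
    FreeAlgebra.ι F 0 * aeval (FreeAlgebra.ι F (1 : Fin 2)) (h j) with hq
  have hqa : ∀ i, q i ∈ aug F 2 := fun i =>
    TwoSidedIdeal.mul_mem_right _ _ _ (TwoSidedIdeal.subset_span ⟨0, rfl⟩)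
  have hlift : ∀ (B : Type u) [Ring B] [Algebra F B] (z t : B),
      FreeAlgebra.lift F ![z, t] (FreeAlgebra.lift F q g)
        = FreeAlgebra.lift F (fun i => FreeAlgebra.lift F ![z, t] (q i)) g := by
    intro B _ _ z t
    have : (FreeAlgebra.lift F ![z, t]).comp (FreeAlgebra.lift F q)
        = FreeAlgebra.lift F (fun i => FreeAlgebra.lift F ![z, t] (q i)) := by
      apply FreeAlgebra.hom_ext
      funext i
      simp
    rw [← this]; rfl
  have hqv : ∀ (B : Type u) [Ring B] [Algebra F B] (z t : B) (i : ℕ),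
      FreeAlgebra.lift F ![z, t] (q i) = z * aeval t (h i) := by
    intro B _ _ z t i
    rw [hq]
    simp only [map_mul, FreeAlgebra.lift_ι_apply]
    rw [← Polynomial.aeval_algHom_apply, FreeAlgebra.lift_ι_apply]
    rfl
  obtain ⟨c, hc⟩ := nf' P (FreeAlgebra.lift F q g)
  have hc0 : c ≠ 0 := by
    intro h0
    have h1 := hc (Module.End F F[X]) (Zo F) (To P) (rel_op P)
    rw [h0, ev_zero, hlift] at h1
    simp only [hqv] at h1
    exact hh h1
  have hP0 : P ≠ 0 := by
    rw [hP]
    refine mul_ne_zero X_ne_zero ?_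
    rintro rfl
    exact hQ (by simp)
  set b := c.leadingCoeff * P ^ c.natDegree with hb
  have hb0 : b ≠ 0 := mul_ne_zero (leadingCoeff_ne_zero.2 hc0) (pow_ne_zero _ hP0)
  refine ⟨b.natDegree + 1, Nat.succ_pos _, fun B _ _ z t h' hs => ?_⟩
  have h1 : ev z t c = 0 := by
    rw [← hc B z t h', hlift, hs q hqa]
  have h2 := top_coeff h' h1
  rw [pow_succ, nil_of_poly h' hb0 h2, zero_mul]

end Pool.Agent.Y555.Mag.Nil
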