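import Mathlib
import Pool.Agent.Helper707.Num
import Pool.Agent.Helper707.Words
import Pool.Agent.Y555.Mag.Alg

/-!
The main theorem on varieties containing the triangular `5 × 5` matrices with equal corners.
-/

namespace Pool.Agent.Y555.Mag.Fin

open Pool.Agent.H682R2.StdNil Pool.Agent.H682R2.StdTri Pool.Agent.Y555.Mag.Alg

universe u

/-- relatively free algebra -/
abbrev RF (F : Type u) [Field F] (T : Set (FreeAlgebra F ℕ)) (k : ℕ) (w : Bool) :=
  (TwoSidedIdeal.span (vals F T k w)).ringCon.Quotient

/-- generators -/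
def gn (F : Type u) [Field F] (T : Set (FreeAlgebra F ℕ)) (k : ℕ) (w : Bool) (i : Fin k) :
    RF F T k w :=
  (TwoSidedIdeal.span (vals F T k w)).ringCon.mk' (FreeAlgebra.ι F i)

/-- value of a noncommutative polynomial with integer coefficients, zero constant term -/
def vl (F : Type u) [Field F] (T : Set (FreeAlgebra F ℕ)) (k : ℕ) (w : Bool)
    (g : List (Bool × Fin k × List (Fin k))) : RF F T k w :=
  (g.map fun t => (if t.1 then 1 else -1) *
    (gn F T k w t.2.1 * (t.2.2.map (gn F T k w)).prod)).sum

/-- Membership in an ideal of a quotient. -/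
theorem mem_quot {A : Type*} [Ring A] (T : Set A) (f g : A) :
    (TwoSidedIdeal.span T).ringCon.mk' g ∈
      TwoSidedIdeal.span {(TwoSidedIdeal.span T).ringCon.mk' f} ↔
    g ∈ TwoSidedIdeal.span ({f} ∪ T) := by
  set π := (TwoSidedIdeal.span T).ringCon.mk' with hπ
  have hker : ∀ a, π a = 0 ↔ a ∈ TwoSidedIdeal.span T := by
    intro a
    rw [← TwoSidedIdeal.mem_ker, hπ, TwoSidedIdeal.ker_ringCon_mk']
  set J := TwoSidedIdeal.span ({f} ∪ T) with hJ
  have hTJ : ∀ a, π a = 0 → a ∈ J := by
    intro a ha
    exact TwoSidedIdeal.span_mono Set.subset_union_right ((hker a).1 ha)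
  have hsurj : Function.Surjective π := RingCon.mk'_surjective _
  constructor
  · intro h
    let J' : TwoSidedIdeal (TwoSidedIdeal.span T).ringCon.Quotient :=
      TwoSidedIdeal.mk' {y | ∀ a, π a = y → a ∈ J}
        (fun a ha => hTJ a ha)
        (by
          intro x y hx hy a ha
          obtain ⟨b, rfl⟩ := hsurj x
          obtain ⟨c, rfl⟩ := hsurj y
          have h1 : a - (b + c) ∈ J := hTJ _ (by rw [map_sub, map_add, ha, sub_self])
          have h2 := J.add_mem h1 (J.add_mem (hx b rfl) (hy c rfl))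
          simpa using h2)
        (by
          intro x hx a ha
          have h1 := hx (-a) (by rw [map_neg, ha, neg_neg])
          have h2 := J.neg_mem h1
          rwa [neg_neg] at h2)
        (by
          intro x y hy a ha
          obtain ⟨b, rfl⟩ := hsurj x
          obtain ⟨c, rfl⟩ := hsurj y
          have h1 : a - b * c ∈ J := hTJ _ (by rw [map_sub, map_mul, ha, sub_self])
          have h2 := J.add_mem h1 (J.mul_mem_left b c (hy c rfl))
          simpa using h2)
        (by
          intro x y hy a ha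
          obtain ⟨b, rfl⟩ := hsurj x
          obtain ⟨c, rfl⟩ := hsurj y
          have h1 : a - b * c ∈ J := hTJ _ (by rw [map_sub, map_mul, ha, sub_self])
          have h2 := J.add_mem h1 (J.mul_mem_right b c (hy b rfl))
          simpa using h2)
    have hle : TwoSidedIdeal.span {π f} ≤ J' := by
      rw [TwoSidedIdeal.span_le]
      intro y hy
      rw [Set.mem_singleton_iff] at hy
      rw [SetLike.mem_coe, TwoSidedIdeal.mem_mk']
      intro a ha
      have h1 : a - f ∈ J := hTJ _ (by rw [map_sub, ha, hy, sub_self])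
      have h2 := J.add_mem h1 (TwoSidedIdeal.subset_span (Or.inl rfl) : f ∈ J)
      simpa using h2
    have h1 := hle h
    rw [TwoSidedIdeal.mem_mk'] at h1
    exact h1 g rfl
  · intro h
    have hle : J ≤ TwoSidedIdeal.comap π (TwoSidedIdeal.span {π f}) := by
      rw [hJ, TwoSidedIdeal.span_le]
      rintro y (hy | hy)
      · rw [Set.mem_singleton_iff] at hy
        rw [SetLike.mem_coe, TwoSidedIdeal.mem_comap, hy]
        exact TwoSidedIdeal.subset_span rfl
      · rw [SetLike.mem_coe, TwoSidedIdeal.mem_comap, (hker y).2 (TwoSidedIdeal.subset_span hy)]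
        exact TwoSidedIdeal.zero_mem _
    exact (TwoSidedIdeal.mem_comap _).1 (hle h)

open Pool.Agent.Helper707 in
theorem vl_gl (F : Type u) [Field F] [CharZero F] (T : Set (FreeAlgebra F ℕ)) (w : Bool)
    (Y : Rel.Sys) (N : ℕ) :
    vl F T 2 w (Words.gl Y.m N) = (TwoSidedIdeal.span (vals F T 2 w)).ringCon.mk'
      (Helper707.Alg.gel F Y (FreeAlgebra.ι F (0 : Fin 2)) (FreeAlgebra.ι F 1) N) := by
  have h1 := Words.evL_rest (F := F) (FreeAlgebra.ι F : Fin 2 → FreeAlgebra F (Fin 2)) Y N
  rw [← h1, map_mul]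
  unfold vl Words.gl Words.evL
  rw [map_list_sum, List.map_map, List.map_map, ← List.sum_map_mul_left]
  congr 1
  refine List.map_congr_left fun a _ => ?_
  obtain ⟨s, u⟩ := a
  simp only [Function.comp_apply, Words.evT, gn, map_mul, map_list_prod, List.map_map]
  cases s
  · simp only [Bool.false_eq_true, if_false, map_neg, map_one]
    simp only [neg_mul, one_mul, mul_neg]
    rfl
  · simp only [if_true, map_one, one_mul]
    rfl

open Pool.Agent.Helper707 in
theorem main (F : Type u) [Field F] [CharZero F] (T : Set (FreeAlgebra F ℕ))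
    (hne : ∃ g ∈ T, g ≠ 0) (hT : Good F T) (w : Bool) :
    ∃ f : RF F T 2 w, f ∈ TwoSidedIdeal.span (Set.range (gn F T 2 w)) ∧
      ¬ ComputablePred fun g : List (Bool × Fin 2 × List (Fin 2)) =>
          vl F T 2 w g ∈ TwoSidedIdeal.span {f} := by
  obtain ⟨g0, hg0, hg00⟩ := hne
  obtain ⟨Y, S, p, hm, hund⟩ := Pool.Agent.Helper707.Num.exists_undecidable_sys
  obtain ⟨M, hM, hnil⟩ := Nil.exists_nil F hg00 (4 * Y.m + 5)
  set π := (TwoSidedIdeal.span (vals F T 2 w)).ringCon.mk' with hπ
  set z : FreeAlgebra F (Fin 2) := FreeAlgebra.ι F 0 with hz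
  set x : FreeAlgebra F (Fin 2) := FreeAlgebra.ι F 1 with hx
  refine ⟨π (Helper707.Alg.fel F Y M z x), ?_, ?_⟩
  · set I := TwoSidedIdeal.span (Set.range (gn F T 2 w)) with hI
    have hzI : π z ∈ I := TwoSidedIdeal.subset_span ⟨0, rfl⟩
    have hP : Idem.P F (4 * Y.m + 5)
        = (∏ i ∈ Finset.range (4 * Y.m + 5), (Polynomial.X - Polynomial.C ((i + 1 : ℕ) : F)))
          * Polynomial.X := by
      unfold Idem.P
      rw [Finset.prod_range_succ']
      simp
    have h1 : Helper707.Alg.fel F Y M z x = Polynomial.aeval z (Idem.P F (4 * Y.m + 5))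
        + (z * Helper707.Alg.tel F Y M z x - Helper707.Alg.tel F Y M z x * z) := rfl
    rw [h1, hP, map_mul (Polynomial.aeval z), Polynomial.aeval_X, map_add, map_sub, map_mul,
      map_mul, map_mul]
    exact I.add_mem (I.mul_mem_left _ _ hzI)
      (I.sub_mem (I.mul_mem_right _ _ hzI) (I.mul_mem_left _ _ hzI))
  · intro hc
    apply hund
    obtain ⟨d, hd, hdp⟩ := ComputablePred.computable_iff.1 hc
    have hpow : Primrec fun k : ℕ => S * p ^ k := by
      have h1 : Primrec fun k : ℕ => p ^ k := by
        have h2 : Primrec (Nat.rec (motive := fun _ => ℕ) 1 (fun _ ih => ih * p)) :=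
          Primrec.nat_rec₁ 1 (Primrec.nat_mul.comp Primrec.snd (Primrec.const p))
        refine h2.of_eq fun k => ?_
        induction k with
        | zero => rfl
        | succ k ih => rw [pow_succ, ← ih]
      exact Primrec.nat_mul.comp (Primrec.const S) h1
    have hgl : Computable fun k : ℕ => Words.gl Y.m (S * p ^ k) :=
      ((Words.primrec_gl Y.m).comp hpow).to_comp
    rw [ComputablePred.computable_iff]
    refine ⟨fun k => d (Words.gl Y.m (S * p ^ k)), hd.comp hgl, ?_⟩
    funext k
    have h3 := congrFun hdp (Words.gl Y.m (S * p ^ k))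
    rw [← h3, vl_gl, mem_quot]
    exact propext (Alg.mem_iff F hm hT hg0 hM hnil w).symm

end Pool.Agent.Y555.Mag.Fin
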